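import Pool.Agent.EngelMc.Hall

set_option autoImplicit false

open Subgroup
open scoped commutatorElement
open scoped Ordinal

universe u

namespace Pool.Agent.EngelMc

variable {G : Type u} [Group G]

/-- `H` is ascendant in `K`: there is an ordinal-indexed chain
`H = f 0 ⊴ f 1 ⊴ … ⊴ f α = K`, each term normal in the next one, whose term at each limit
ordinal is the union of the preceding terms. -/
def Ascendant (H K : Subgroup G) : Prop :=
  ∃ (α : Ordinal.{u}) (f : Ordinal.{u} → Subgroup G), f 0 = H ∧ f α = K ∧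
    (∀ β < α, f β ≤ f (β + 1) ∧ f (β + 1) ≤ normalizer (f β : Set G)) ∧
    (∀ l ≤ α, Order.IsSuccLimit l → (f l : Set G) = ⋃ β < l, (f β : Set G))

theorem chain_mono {α : Ordinal.{u}} {f : Ordinal.{u} → Subgroup G}
    (hs : ∀ β < α, f β ≤ f (β + 1))
    (hl : ∀ l ≤ α, Order.IsSuccLimit l → (f l : Set G) = ⋃ β < l, (f β : Set G)) :
    ∀ γ ≤ α, ∀ β ≤ γ, f β ≤ f γ := by
  intro γ
  induction γ using Ordinal.limitRecOn with
  | zero =>
    intro _ β hβ
    have : β = 0 := by simpa using hβ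
    rw [this]
  | add_one γ ih =>
    intro hγ β hβ
    have hγα : γ < α := lt_of_lt_of_le (lt_add_one γ) hγ
    rcases hβ.eq_or_lt with h | h
    · rw [h]
    · have h1 : β ≤ γ := Order.lt_add_one_iff.1 h
      exact (ih hγα.le β h1).trans (hs γ hγα)
  | limit γ hγl ih =>
    intro hγ β hβ
    rcases hβ.eq_or_lt with h | h
    · rw [h]
    · intro x hx
      have h1 := hl γ hγ hγl
      rw [← SetLike.mem_coe, h1]
      simp only [Set.mem_iUnion]
      exact ⟨β, h, hx⟩

theorem Ascendant.refl (H : Subgroup G) : Ascendant H H := by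
  refine ⟨0, fun _ => H, rfl, rfl, ?_, ?_⟩
  · intro β hβ
    exact absurd hβ (not_lt_of_ge (zero_le))
  · intro l hl hlim
    have : l = 0 := by simpa using hl
    rw [this] at hlim
    exact absurd hlim.bot_lt (by simp)

theorem Ascendant.trans {H K L : Subgroup G} (h1 : Ascendant H K) (h2 : Ascendant K L) :
    Ascendant H L := by
  obtain ⟨α, f, hf0, hfα, hfs, hfl⟩ := h1
  obtain ⟨β, g, hg0, hgβ, hgs, hgl⟩ := h2
  have hfmono := chain_mono (fun β hβ => (hfs β hβ).1) hfl
  set h : Ordinal.{u} → Subgroup G := fun γ => if γ ≤ α then f γ else g (γ - α) with hh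
  have hle : ∀ γ ≤ α, h γ = f γ := fun γ hγ => if_pos hγ
  have hge : ∀ γ, α ≤ γ → h γ = g (γ - α) := by
    intro γ hγ
    by_cases h1 : γ ≤ α
    · have : γ = α := le_antisymm h1 hγ
      rw [this, hle α le_rfl, Ordinal.sub_self, hfα, hg0]
    · exact if_neg h1
  have hadd : ∀ ν, h (α + ν) = g ν := by
    intro ν
    rw [hge (α + ν) le_self_add, Ordinal.add_sub_cancel]
  refine ⟨α + β, h, ?_, ?_, ?_, ?_⟩
  · rw [hle 0 zero_le, hf0]
  · rw [hadd, hgβ]
  · intro γ hγ
    rcases lt_or_ge γ α with h1 | h1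
    · rw [hle γ h1.le, hle (γ + 1) (Order.add_one_le_of_lt h1)]
      exact hfs γ h1
    · obtain ⟨ν, rfl⟩ := exists_add_of_le h1
      rw [add_assoc, hadd, hadd]
      exact hgs ν (lt_of_add_lt_add_left hγ)
  · intro l hl hlim
    rcases le_or_gt l α with h1 | h1
    · rw [hle l h1, hfl l h1 hlim]
      refine Set.iUnion_congr fun β => Set.iUnion_congr fun hβ => ?_
      rw [hle β (hβ.le.trans h1)]
    · obtain ⟨μ, rfl⟩ := exists_add_of_le h1.le
      have hμ : Order.IsSuccLimit μ := by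
        have := Ordinal.isSuccLimit_sub hlim.isSuccPrelimit h1
        rwa [Ordinal.add_sub_cancel] at this
      have hμβ : μ ≤ β := le_of_add_le_add_left hl
      rw [hadd, hgl μ hμβ hμ]
      ext x
      simp only [Set.mem_iUnion, exists_prop]
      constructor
      · rintro ⟨ν, hν, hx⟩
        refine ⟨α + ν, by simpa using hν, ?_⟩
        rw [hadd]
        exact hx
      · rintro ⟨γ, hγ, hx⟩
        rcases le_or_gt γ α with h2 | h2
        · refine ⟨0, hμ.bot_lt, ?_⟩
          rw [hg0, ← hfα]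
          rw [hle γ h2] at hx
          exact hfmono α le_rfl γ h2 hx
        · obtain ⟨ν, rfl⟩ := exists_add_of_le h2.le
          rw [hadd] at hx
          exact ⟨ν, lt_of_add_lt_add_left hγ, hx⟩

theorem ascendant_omega (L : ℕ → Subgroup G) (hmono : ∀ n, L n ≤ L (n + 1))
    (hnorm : ∀ n, L (n + 1) ≤ normalizer (L n : Set G)) : Ascendant (L 0) (⨆ n, L n) := by
  have hmono' : Monotone L := monotone_nat_of_le_succ hmono
  set f : Ordinal.{u} → Subgroup G := fun β => ⨆ (n : ℕ) (_ : (n : Ordinal.{u}) ≤ β), L n with hf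
  have hfn : ∀ n : ℕ, f n = L n := by
    intro n
    refine le_antisymm ?_ ?_
    · refine iSup₂_le fun m hm => hmono' ?_
      exact_mod_cast hm
    · exact le_iSup₂_of_le n le_rfl le_rfl
  have hfω : f ω = ⨆ n, L n := by
    refine le_antisymm (iSup₂_le fun m _ => le_iSup L m) (iSup_le fun m => ?_)
    exact le_iSup₂_of_le m (Ordinal.natCast_lt_omega0 m).le le_rfl
  refine ⟨ω, f, ?_, hfω, ?_, ?_⟩
  · have := hfn 0
    rwa [Nat.cast_zero] at this
  · intro β hβ
    obtain ⟨n, rfl⟩ := Ordinal.lt_omega0.1 hβ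
    have h1 : ((n : Ordinal.{u}) + 1) = ((n + 1 : ℕ) : Ordinal.{u}) := by push_cast; rfl
    rw [h1, hfn, hfn]
    exact ⟨hmono n, hnorm n⟩
  · intro l hl hlim
    have hlω : l = ω := le_antisymm hl (Ordinal.omega0_le_of_isSuccLimit hlim)
    rw [hlω, hfω]
    ext x
    simp only [Set.mem_iUnion, exists_prop, SetLike.mem_coe]
    rw [mem_iSup_of_directed hmono'.directed_le]
    constructor
    · rintro ⟨n, hn⟩
      exact ⟨n, Ordinal.natCast_lt_omega0 n, by rw [hfn]; exact hn⟩
    · rintro ⟨β, hβ, hx⟩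
      obtain ⟨n, rfl⟩ := Ordinal.lt_omega0.1 hβ
      rw [hfn] at hx
      exact ⟨n, hx⟩

theorem asc_sec {B B' : Subgroup G} {x : G} (h : Sec B B' x)
    (hB : ∀ b ∈ B, ∃ n, (D x)^[n] b ∈ B') :
    Ascendant (zpowers x ⊔ B') (zpowers x ⊔ B) := by
  set L : ℕ → Subgroup G := fun n => zpowers x ⊔ (lev h n).1 with hL
  have hmono : ∀ n, L n ≤ L (n + 1) := fun n => sup_le_sup_left (lev_mono h (Nat.le_succ n)) _
  have hnorm : ∀ n, L (n + 1) ≤ normalizer (L n : Set G) := by
    intro n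
    refine sup_le (le_sup_left.trans le_normalizer) ?_
    intro b hb
    have hxL : x ∈ L n := (le_sup_left : zpowers x ≤ _) (mem_zpowers x)
    have hlL : (lev h n).1 ≤ L n := le_sup_right
    have hLcl : L n = closure (insert x ((lev h n).1 : Set G)) := by
      refine le_antisymm (sup_le ?_ ?_) ?_
      · rw [zpowers_le]; exact subset_closure (Set.mem_insert _ _)
      · exact fun y hy => subset_closure (Set.mem_insert_of_mem _ hy)
      · rw [closure_le]
        rintro y (rfl | hy)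
        · exact hxL
        · exact hlL hy
    have hbB : b ∈ B := hb.1
    have key : ∀ b ∈ (lev h (n + 1)).1, ∀ y ∈ insert x ((lev h n).1 : Set G),
        b⁻¹ * y * b ∈ L n := by
      rintro b hb y (rfl | hy)
      · have h1 : b⁻¹ * y * b = y * (D y b)⁻¹ := by simp only [D]; group
        rw [h1]
        exact mul_mem hxL (inv_mem (hlL hb.2))
      · exact hlL (norm_conj' ((lev h n).2.BL hb.1) hy)
    rw [hLcl]
    refine mem_norm_closure ?_ ?_
    · intro y hy
      have := key b⁻¹ (inv_mem hb) y hy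
      rw [inv_inv] at this
      rwa [← hLcl]
    · intro y hy
      rw [← hLcl]
      exact key b hb y hy
  have h0 : L 0 = zpowers x ⊔ B' := rfl
  have hsup : (⨆ n, L n) = zpowers x ⊔ B := by
    refine le_antisymm (iSup_le fun n => sup_le_sup_left (lev h n).2.le' _) ?_
    refine sup_le ((le_sup_left : zpowers x ≤ L 0).trans (le_iSup L 0)) ?_
    intro b hb
    obtain ⟨n, hn⟩ := hB b hb
    exact (le_iSup L n) ((le_sup_right : (lev h n).1 ≤ L n) (mem_lev_of_iter h hb hn))
  have := ascendant_omega L hmono hnorm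
  rwa [h0, hsup] at this

/-! ### The second centre of a locally nilpotent group with the minimal condition -/

/-- the centre of `B`, as a subgroup of `G` -/
def zc (B : Subgroup G) : Subgroup G := B ⊓ centralizer (B : Set G)

theorem zc_comm {B : Subgroup G} {z g : G} (hz : z ∈ zc B) (hg : g ∈ B) : g * z = z * g :=
  mem_centralizer_iff.1 (mem_inf.1 hz).2 g hg

theorem zc_conj {B : Subgroup G} {z g : G} (hz : z ∈ zc B) (hg : g ∈ B) : g⁻¹ * z * g = z := by
  rw [mul_assoc, ← zc_comm hz hg]; group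

theorem zc_conj' {B : Subgroup G} {z g : G} (hz : z ∈ zc B) (hg : g ∈ B) : g * z * g⁻¹ = z := by
  rw [zc_comm hz hg]; group

theorem zc_le (B : Subgroup G) : zc B ≤ B := inf_le_left

theorem zc_norm {B : Subgroup G} {g : G} (hg : g ∈ normalizer (B : Set G)) :
    g ∈ normalizer (zc B : Set G) := norm_inf hg (norm_centralizer hg)

theorem zc_D {B : Subgroup G} {t s : G} (ht : t ∈ B) (hs : s ∈ B) : D t s ∈ B := by
  rw [D_eq]
  exact mul_mem (inv_mem hs) (mul_mem (mul_mem (inv_mem ht) hs) ht)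

theorem zc_D_mul {B : Subgroup G} {t s z z' : G} (ht : t ∈ B) (hs : s ∈ B) (hz : z ∈ zc B)
    (hz' : z' ∈ zc B) : D (t * z) (s * z') = D t s := by
  have h0 : D t s ∈ B := zc_D ht hs
  have h1 : D z (s * z') = 1 := by
    have h := zc_comm hz (mul_mem hs (zc_le B hz'))
    simp only [D]
    rw [mul_assoc ((s * z')⁻¹ * z⁻¹), h]; group
  have h2 : D t z' = 1 := by
    rw [D_eq, zc_conj hz' ht]; group
  rw [D_mul_left, h1, one_mul, D_mul_right, h2, mul_one]
  have h3 : z'⁻¹ * D t s * z' = D t s := by rw [mul_assoc, zc_comm hz' h0]; group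
  have h4 : z⁻¹ * D t s * z = D t s := by rw [mul_assoc, zc_comm hz h0]; group
  rw [h3, h4]

theorem zc_alg1 {B : Subgroup G} {v s t : G} (hs : s ∈ B) (ht : t ∈ B)
    (hs' : D s v ∈ zc B) (ht' : D t v ∈ zc B) : v * D t s = D t s * v := by
  have conj : ∀ s : G, v⁻¹ * s * v = s * (D s v)⁻¹ := by
    intro s
    simp only [D]; group
  have h1 : v⁻¹ * D t s * v = D t s := by
    rw [← D_conj, conj t, conj s, zc_D_mul ht hs (inv_mem ht') (inv_mem hs')]
  calc v * D t s = v * (v⁻¹ * D t s * v) := by rw [h1]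
    _ = D t s * v := by group

theorem zc_alg2 {B : Subgroup G} {v t γ : G} (hv : v ∈ B) (ht : t ∈ B) (hγ : γ ∈ B)
    (hz : D γ v ∈ zc B) (he : v * D t⁻¹ γ = D t⁻¹ γ * v) : γ * D t v = D t v * γ := by
  set z := D γ v with hzdef
  set e := D t⁻¹ γ with hedef
  have h1 : v * γ * v⁻¹ = γ * z := by
    have : v * γ * v⁻¹ = γ * (v * z * v⁻¹) := by simp only [hzdef, D]; group
    rw [this, zc_conj' hz hv]
  have h2 : t * γ * t⁻¹ = γ * e := by simp only [hedef, D]; group
  have h3 : v⁻¹ * γ * v = γ * z⁻¹ := by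
    have h4 : γ = v⁻¹ * γ * v * z := by
      calc γ = v⁻¹ * (v * γ * v⁻¹) * v := by group
        _ = v⁻¹ * γ * v * (v⁻¹ * z * v) := by rw [h1]; group
        _ = v⁻¹ * γ * v * z := by rw [zc_conj hz hv]
    calc v⁻¹ * γ * v = (v⁻¹ * γ * v * z) * z⁻¹ := by group
      _ = γ * z⁻¹ := by rw [← h4]
  have hve : v⁻¹ * e * v = e := by rw [mul_assoc, ← he]; group
  have hez : e * z = z * e := zc_comm hz (zc_D (inv_mem ht) hγ)
  have h5 : (D t v)⁻¹ * γ * D t v = γ := by
    calc (D t v)⁻¹ * γ * D t v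
        = t⁻¹ * (v⁻¹ * (t * (v * γ * v⁻¹) * t⁻¹) * v) * t := by simp only [D]; group
      _ = t⁻¹ * (v⁻¹ * (t * γ * t⁻¹ * (t * z * t⁻¹)) * v) * t := by rw [h1]; group
      _ = t⁻¹ * (v⁻¹ * (γ * e * z) * v) * t := by rw [h2, zc_conj' hz ht]
      _ = t⁻¹ * ((v⁻¹ * γ * v) * (v⁻¹ * e * v) * (v⁻¹ * z * v)) * t := by group
      _ = t⁻¹ * (γ * z⁻¹ * (e * z)) * t := by rw [h3, hve, zc_conj hz hv]; group
      _ = t⁻¹ * (γ * e) * t := by rw [hez]; group
      _ = γ := by rw [← h2]; group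
  calc γ * D t v = D t v * ((D t v)⁻¹ * γ * D t v) := by group
    _ = D t v * γ := by rw [h5]

/-- the second centre of `B`, as a set -/
def z2 (B : Subgroup G) : Set G := {v | v ∈ B ∧ ∀ b ∈ B, D b v ∈ zc B}

theorem z2_norm {B : Subgroup G} {g : G} (hg : g ∈ normalizer (B : Set G)) :
    g ∈ normalizer (z2 B) := by
  refine mem_snorm ?_ ?_
  · rintro v ⟨hv, hv'⟩
    refine ⟨norm_conj hg hv, fun b hb => ?_⟩
    have h1 : D b (g * v * g⁻¹) = g * D (g⁻¹ * b * g) v * g⁻¹ := by
      rw [← D_conj']; congr 1; group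
    rw [h1]
    exact norm_conj (zc_norm hg) (hv' _ (norm_conj' hg hb))
  · rintro v ⟨hv, hv'⟩
    refine ⟨norm_conj' hg hv, fun b hb => ?_⟩
    have h1 : D b (g⁻¹ * v * g) = g⁻¹ * D (g * b * g⁻¹) v * g := by
      rw [← D_conj]; congr 1; group
    rw [h1]
    exact norm_conj' (zc_norm hg) (hv' _ (norm_conj hg hb))

theorem exists_z2 (h : MC G) {B : Subgroup G} (hB : LN B)
    (hnab : ¬ ∀ a ∈ B, ∀ b ∈ B, a * b = b * a) : ∃ v ∈ z2 B, v ∉ zc B := by
  classical
  have hcl : closure (B : Set G) = B := closure_eq B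
  obtain ⟨Δ₁, hΔ₁f, hΔ₁B, hΔ₁⟩ := h.finite_gen (fun S => (closure S : Set G))
    (fun S T h => closure_mono h) (B : Set G) (by
      intro g hg
      obtain ⟨F, hF, hFA, hgF⟩ := mem_closure_finite hg
      exact ⟨F, hF, hFA, hgF⟩)
  obtain ⟨Δ₂, hΔ₂f, hΔ₂B, hΔ₂⟩ := h.finite_gen
    (fun S => Set.image2 D (closure S : Set G) (closure S : Set G))
    (fun S T h => Set.image2_subset (closure_mono h) (closure_mono h)) (B : Set G) (by
      rintro _ ⟨t, ht, s, hs, rfl⟩
      obtain ⟨F, hF, hFA, htF⟩ := mem_closure_finite ht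
      obtain ⟨F', hF', hF'A, hsF'⟩ := mem_closure_finite hs
      exact ⟨F ∪ F', hF.union hF', Set.union_subset hFA hF'A, t,
        closure_mono Set.subset_union_left htF, s,
        closure_mono Set.subset_union_right hsF', rfl⟩)
  simp only [hcl] at hΔ₁ hΔ₂
  set Δ : Set G := Δ₁ ∪ Δ₂ with hΔ
  have hΔB : Δ ⊆ (B : Set G) := Set.union_subset hΔ₁B hΔ₂B
  set F := closure Δ with hF
  have hFB : F ≤ B := (closure_le _).2 hΔB
  have hcen1 : centralizer (F : Set G) = centralizer (B : Set G) := by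
    refine le_antisymm ?_ (centralizer_le hFB)
    rw [← hΔ₁]
    exact centralizer_le (closure_mono Set.subset_union_left)
  have hcen2 : centralizer (Set.image2 D (F : Set G) (F : Set G)) ≤
      centralizer (Set.image2 D (B : Set G) (B : Set G)) := by
    rw [← hΔ₂]
    exact centralizer_le (Set.image2_subset (closure_mono Set.subset_union_right)
      (closure_mono Set.subset_union_right))
  obtain ⟨n, hn⟩ := hB Δ (hΔ₁f.union hΔ₂f) hΔB
  have hex : ∃ k, F.lowerCentralSeries k ≤ zc B := ⟨n, by rw [hn]; exact bot_le⟩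
  have h0 : ¬ F.lowerCentralSeries 0 ≤ zc B := by
    intro h'
    apply hnab
    intro a ha b hb
    have h1 : b ∈ centralizer (F : Set G) := by
      rw [mem_centralizer_iff]
      intro s hs
      exact (zc_comm (h' hs) hb).symm
    rw [hcen1] at h1
    exact mem_centralizer_iff.1 h1 a ha
  rcases hf : Nat.find hex with _ | k
  · exfalso
    have := Nat.find_spec hex
    rw [hf] at this
    exact h0 this
  · have h1 := Nat.find_spec hex
    rw [hf] at h1
    have h2 : ¬ F.lowerCentralSeries k ≤ zc B := Nat.find_min hex (by omega)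
    obtain ⟨v, hv, hvZ⟩ := SetLike.not_le_iff_exists.1 h2
    have hvF : v ∈ F := Subgroup.lowerCentralSeries_antitone F (Nat.zero_le k) hv
    have hvB : v ∈ B := hFB hvF
    have hvcl : ∀ u ∈ F, D u v ∈ zc B := fun u hu => h1 (D_mem_comm hv hu)
    have hvcomm : v ∈ centralizer (Set.image2 D (B : Set G) (B : Set G)) := by
      apply hcen2
      rw [mem_centralizer_iff]
      rintro _ ⟨t, ht, s, hs, rfl⟩
      exact (zc_alg1 (hFB hs) (hFB ht) (hvcl s hs) (hvcl t ht)).symm
    refine ⟨v, ⟨hvB, fun t ht => ?_⟩, hvZ⟩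
    refine mem_inf.2 ⟨zc_D ht hvB, ?_⟩
    rw [← hcen1, mem_centralizer_iff]
    intro γ hγ
    refine zc_alg2 hvB ht (hFB hγ) (hvcl γ hγ) ?_
    exact (mem_centralizer_iff.1 hvcomm (D t⁻¹ γ) ⟨t⁻¹, inv_mem ht, γ, hFB hγ, rfl⟩).symm

theorem asc_main (h : MC G) {A : Subgroup G} (hA : LN A) {x : G}
    (hxA : x ∈ normalizer (A : Set G)) (hx : ∀ b ∈ A, ∃ n, (D x)^[n] b = 1) :
    Ascendant (zpowers x) (zpowers x ⊔ A) := by
  by_contra hcon
  obtain ⟨C, hC, ⟨hxC, hCn⟩, hmin⟩ := h.exists_min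
    (fun C => x ∈ normalizer (C : Set G) ∧ ¬ Ascendant (zpowers x) (zpowers x ⊔ (A ⊓ C)))
    ⟨⊤, ⟨∅, (by ext g; simp [mem_centralizer_iff])⟩, le_normalizer (mem_top _), by
      rwa [inf_top_eq]⟩
  set B : Subgroup G := A ⊓ C with hB
  have hxB : x ∈ normalizer (B : Set G) := norm_inf hxA hxC
  by_cases hab : ∀ a ∈ B, ∀ b ∈ B, a * b = b * a
  · have hsec : Sec B ⊥ x := by
      refine ⟨bot_le, ?_, hxB, ?_⟩
      · intro s hs t ht
        rw [mem_bot]
        simp only [D]
        rw [mul_assoc, hab s hs t ht]; group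
      · refine mem_norm ?_ ?_
        · intro b hb
          rw [mem_bot] at hb
          rw [hb]; simp
        · intro b hb
          rw [mem_bot] at hb
          rw [hb]; simp
    have h1 := asc_sec hsec (fun b hb => by
      obtain ⟨n, hn⟩ := hx b (mem_inf.1 hb).1
      exact ⟨n, by rw [hn]; exact one_mem _⟩)
    rw [sup_bot_eq] at h1
    exact hCn h1
  · obtain ⟨v, hv, hvZ⟩ := exists_z2 h (hA.mono inf_le_left) hab
    set C' : Subgroup G := C ⊓ centralizer (z2 B) with hC'
    have hC'cent : IsCent C' := hC.inf _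
    have hC'lt : C' < C := by
      refine lt_of_le_of_ne inf_le_left fun heq => hvZ ?_
      refine mem_inf.2 ⟨hv.1, mem_centralizer_iff.2 fun g hg => ?_⟩
      have hgC : g ∈ C' := by rw [heq]; exact (mem_inf.1 hg).2
      exact (mem_centralizer_iff.1 (mem_inf.1 hgC).2 v hv).symm
    have hxC' : x ∈ normalizer (C' : Set G) := norm_inf hxC (norm_centralizer (z2_norm hxB))
    have h1 : Ascendant (zpowers x) (zpowers x ⊔ (A ⊓ C')) := by
      by_contra h2
      exact hmin C' hC'cent hC'lt ⟨hxC', h2⟩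
    have hsec : Sec B (A ⊓ C') x := by
      refine ⟨inf_le_inf_left _ hC'lt.le, ?_, hxB, norm_inf hxA hxC'⟩
      intro s hs t ht
      have hDB : D t s ∈ B := zc_D ht hs
      refine mem_inf.2 ⟨(mem_inf.1 hDB).1, mem_inf.2 ⟨(mem_inf.1 hDB).2, ?_⟩⟩
      rw [mem_centralizer_iff]
      intro w hw
      exact zc_alg1 hs ht (hw.2 s hs) (hw.2 t ht)
    have h2 := asc_sec hsec (fun b hb => by
      obtain ⟨n, hn⟩ := hx b (mem_inf.1 hb).1
      exact ⟨n, by rw [hn]; exact one_mem _⟩)
    exact hCn (h1.trans h2)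

end Pool.Agent.EngelMc
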