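import Pool.Agent.EngelMc.Asc

set_option autoImplicit false

open Subgroup
open scoped commutatorElement

universe u

namespace Pool.Agent.EngelMc

variable {G : Type u} [Group G]

/-- `[v, t₁, …, tₙ] ∈ L` for all `tᵢ ∈ S` -/
def Kil (S : Set G) (L : Subgroup G) : ℕ → G → Prop
  | 0, v => v ∈ L
  | n + 1, v => ∀ t ∈ S, Kil S L n (D t v)

theorem Kil.comp {S : Set G} {L L' : Subgroup G} {m : ℕ} (h : ∀ v ∈ L, Kil S L' m v) :
    ∀ n v, Kil S L n v → Kil S L' (n + m) v := by
  intro n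
  induction n with
  | zero => intro v hv; rw [zero_add]; exact h v hv
  | succ n ih =>
    intro v hv
    rw [Nat.add_right_comm]
    exact fun t ht => ih _ (hv t ht)

/-- the subgroup version of `Kil` for a subgroup acting -/
structure Upp (A L : Subgroup G) (n : ℕ) (U : Subgroup G) : Prop where
  mem : ∀ v, v ∈ U ↔ v ∈ A ∧ Kil (A : Set G) L n v
  norm : A ≤ normalizer (U : Set G)

theorem exists_upp {A L : Subgroup G} (hLA : L ≤ A) (hAL : A ≤ normalizer (L : Set G)) (n : ℕ) :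
    ∃ U : Subgroup G, Upp A L n U := by
  induction n with
  | zero =>
    exact ⟨L, fun v => ⟨fun hv => ⟨hLA hv, hv⟩, fun hv => hv.2⟩, hAL⟩
  | succ n ih =>
    obtain ⟨U, hU⟩ := ih
    have hmem : ∀ v, v ∈ A → (Kil (A : Set G) L (n + 1) v ↔ ∀ t ∈ A, D t v ∈ U) := by
      intro v hv
      constructor
      · intro h t ht
        refine (hU.mem _).2 ⟨?_, h t ht⟩
        rw [D_eq]
        exact mul_mem (inv_mem hv) (mul_mem (mul_mem (inv_mem ht) hv) ht)
      · intro h t ht
        exact ((hU.mem _).1 (h t ht)).2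
    let V : Subgroup G :=
      { carrier := {v | v ∈ A ∧ ∀ t ∈ A, D t v ∈ U}
        one_mem' := ⟨one_mem _, fun t _ => by rw [D_one_right]; exact one_mem _⟩
        mul_mem' := by
          rintro a b ⟨ha, ha'⟩ ⟨hb, hb'⟩
          refine ⟨mul_mem ha hb, fun t ht => ?_⟩
          rw [D_mul_right]
          exact mul_mem (norm_conj' (hU.norm hb) (ha' t ht)) (hb' t ht)
        inv_mem' := by
          rintro a ⟨ha, ha'⟩
          refine ⟨inv_mem ha, fun t ht => ?_⟩
          rw [D_inv_right]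
          exact norm_conj (hU.norm ha) (inv_mem (ha' t ht)) }
    refine ⟨V, ?_, ?_⟩
    · intro v
      constructor
      · rintro ⟨hv, hv'⟩
        exact ⟨hv, (hmem v hv).2 hv'⟩
      · rintro ⟨hv, hv'⟩
        exact ⟨hv, (hmem v hv).1 hv'⟩
    · intro g hg
      refine mem_norm ?_ ?_
      · rintro v ⟨hv, hv'⟩
        refine ⟨mul_mem (mul_mem hg hv) (inv_mem hg), fun t ht => ?_⟩
        have h1 : D t (g * v * g⁻¹) = g * D (g⁻¹ * t * g) v * g⁻¹ := by
          rw [← D_conj']; congr 1; group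
        rw [h1]
        exact norm_conj (hU.norm hg) (hv' _ (mul_mem (mul_mem (inv_mem hg) ht) hg))
      · rintro v ⟨hv, hv'⟩
        refine ⟨mul_mem (mul_mem (inv_mem hg) hv) hg, fun t ht => ?_⟩
        have h1 : D t (g⁻¹ * v * g) = g⁻¹ * D (g * t * g⁻¹) v * g := by
          rw [← D_conj]; congr 1; group
        rw [h1]
        exact norm_conj' (hU.norm hg) (hv' _ (mul_mem (mul_mem hg ht) (inv_mem hg)))

theorem lcs_le_of_kil {A L : Subgroup G} (hLA : L ≤ A) (hAL : A ≤ normalizer (L : Set G)) {n : ℕ}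
    (h : ∀ b ∈ A, Kil (A : Set G) L n b) : A.lowerCentralSeries n ≤ L := by
  have key : ∀ j m, j + m = n → ∀ b ∈ A.lowerCentralSeries j, Kil (A : Set G) L m b := by
    intro j
    induction j with
    | zero =>
      intro m hm b hb
      have : m = n := by omega
      rw [this]
      exact h b hb
    | succ j ih =>
      intro m hm b hb
      obtain ⟨U, hU⟩ := exists_upp hLA hAL m
      have h1 := ih (m + 1) (by omega)
      have h2 : A.lowerCentralSeries (j + 1) ≤ U := by
        rw [Subgroup.lowerCentralSeries_succ]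
        refine comm_le_of_D ?_
        intro t ht s hs
        have hsA : s ∈ A := Subgroup.lowerCentralSeries_antitone A (Nat.zero_le j) hs
        refine (hU.mem _).2 ⟨?_, h1 s hs t ht⟩
        rw [D_eq]
        exact mul_mem (inv_mem hsA) (mul_mem (mul_mem (inv_mem ht) hsA) ht)
      exact ((hU.mem b).1 (h2 hb)).2
  intro b hb
  exact key n 0 (by omega) b hb

/-- **S3** -/
theorem nl_aux (hmc : MC G) {A : Subgroup G} (n : ℕ) : ∀ M : Subgroup G,
    A ≤ normalizer (M : Set G) → (∀ a ∈ M, ∀ b ∈ M, a * b = b * a) →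
    (∀ Γ : Set G, Γ.Finite → Γ ⊆ (A : Set G) → ∃ k, ∀ v ∈ M, Kil Γ ⊥ k v) →
    A.lowerCentralSeries n ≤ centralizer (M : Set G) →
    ∃ K, ∀ v ∈ M, Kil (A : Set G) ⊥ K v := by
  induction n with
  | zero =>
    intro M _ _ _ hcen
    refine ⟨1, fun v hv t ht => ?_⟩
    change D t v ∈ (⊥ : Subgroup G)
    have h1 : v * t = t * v := mem_centralizer_iff.1 (hcen ht) v hv
    rw [mem_bot]
    simp only [D]
    rw [mul_assoc, h1]; group
  | succ n ih =>
    intro M hAM hab hΓ hcen
    set N := A.lowerCentralSeries n with hN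
    have hNA : N ≤ A := Subgroup.lowerCentralSeries_antitone A (Nat.zero_le n)
    have hAN : A ≤ normalizer (N : Set G) := self_le_normalizer_lowerCentralSeries A n
    set M₁ : Subgroup G := M ⊓ centralizer (N : Set G) with hM₁
    have hAM₁ : A ≤ normalizer (M₁ : Set G) :=
      fun g hg => norm_inf (hAM hg) (norm_centralizer (hAN hg))
    obtain ⟨K₁, hK₁⟩ := ih M₁ hAM₁ (fun a ha b hb => hab a (mem_inf.1 ha).1 b (mem_inf.1 hb).1)
      (fun Γ hΓf hΓA => by
        obtain ⟨k, hk⟩ := hΓ Γ hΓf hΓA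
        exact ⟨k, fun v hv => hk v (mem_inf.1 hv).1⟩)
      (by
        intro g hg
        rw [mem_centralizer_iff]
        intro v hv
        exact (mem_centralizer_iff.1 (mem_inf.1 hv).2 g hg).symm)
    obtain ⟨Γ, hΓf, hΓN, hΓc⟩ := hmc.finite_gen (fun S => S) (fun _ _ h => h) (N : Set G)
      (fun g hg => ⟨{g}, Set.finite_singleton g, by simpa using hg, rfl⟩)
    obtain ⟨k, hk⟩ := hΓ Γ hΓf (hΓN.trans hNA)
    -- commuting actions
    have hcomm : ∀ v ∈ M, ∀ a ∈ A, ∀ γ ∈ N, D γ (D a v) = D a (D γ v) := by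
      intro v hv a ha γ hγ
      have hγA : γ ∈ A := hNA hγ
      have h1 : D a γ ∈ A.lowerCentralSeries (n + 1) := D_mem_comm hγ ha
      have hva : a⁻¹ * v * a ∈ M := norm_conj' (hAM ha) hv
      have hvγ : γ⁻¹ * v * γ ∈ M := norm_conj' (hAM hγA) hv
      have hvaγ : a⁻¹ * γ⁻¹ * v * γ * a ∈ M := by
        have h0 : a⁻¹ * γ⁻¹ * v * γ * a = a⁻¹ * (γ⁻¹ * v * γ) * a := by group
        rw [h0]
        exact norm_conj' (hAM ha) hvγ
      -- conjugation by `γ a` and `a γ` agree on `v`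
      have h2 : γ⁻¹ * a⁻¹ * v * a * γ = a⁻¹ * γ⁻¹ * v * γ * a := by
        have h3 : (a⁻¹ * γ⁻¹ * v * γ * a) * (D a γ)⁻¹ = (D a γ)⁻¹ * (a⁻¹ * γ⁻¹ * v * γ * a) :=
          mem_centralizer_iff.1 (hcen (inv_mem h1)) _ hvaγ
        have h4 : γ⁻¹ * a⁻¹ * v * a * γ = (D a γ) * ((a⁻¹ * γ⁻¹ * v * γ * a) * (D a γ)⁻¹) := by
          simp only [D]; group
        rw [h4, h3]; group
      have e1 : D γ (D a v) = ((a⁻¹ * v * a)⁻¹ * v) * ((γ⁻¹ * v * γ)⁻¹ * (γ⁻¹ * a⁻¹ * v * a * γ)) := by
        simp only [D]; group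
      have e2 : D a (D γ v) = ((γ⁻¹ * v * γ)⁻¹ * v) * ((a⁻¹ * v * a)⁻¹ * (a⁻¹ * γ⁻¹ * v * γ * a)) := by
        simp only [D]; group
      rw [e1, e2, h2]
      generalize a⁻¹ * γ⁻¹ * v * γ * a = w at hvaγ
      generalize a⁻¹ * v * a = p at hva
      generalize γ⁻¹ * v * γ = q at hvγ
      have c1 := hab _ (inv_mem hva) _ hv
      have c2 := hab _ (inv_mem hva) _ (inv_mem hvγ)
      have c3 := hab _ (inv_mem hvγ) _ hv
      calc p⁻¹ * v * (q⁻¹ * w) = v * (p⁻¹ * q⁻¹) * w := by rw [c1]; group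
        _ = v * (q⁻¹ * p⁻¹) * w := by rw [c2]
        _ = q⁻¹ * v * (p⁻¹ * w) := by rw [c3]; group
    have hD : ∀ v ∈ M, ∀ a ∈ A, D a v ∈ M := by
      intro v hv a ha
      rw [D_eq]
      exact mul_mem (inv_mem hv) (norm_conj' (hAM ha) hv)
    have hlift : ∀ m, ∀ v ∈ M, (∀ γ ∈ Γ, Kil (A : Set G) ⊥ m (D γ v)) →
        Kil (A : Set G) M₁ m v := by
      intro m
      induction m with
      | zero =>
        intro v hv h
        refine mem_inf.2 ⟨hv, ?_⟩
        have h1 : v ∈ centralizer Γ := by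
          rw [mem_centralizer_iff]
          intro γ hγ
          have h2 : D γ v = 1 := mem_bot.1 (h γ hγ)
          have h3 : γ * v = v * γ * (D γ v)⁻¹ := by simp only [D]; group
          rw [h3, h2]; group
        have h1' : v ∈ centralizer (N : Set G) := by
          rw [← hΓc]; exact h1
        exact h1'
      | succ m ihm =>
        intro v hv h a ha
        refine ihm _ (hD v hv a ha) ?_
        intro γ hγ
        rw [hcomm v hv a ha γ (hΓN hγ)]
        exact h γ hγ a ha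
    have hmain : ∀ j, ∀ v ∈ M, Kil Γ ⊥ j v → Kil (A : Set G) ⊥ (j * K₁) v := by
      intro j
      induction j with
      | zero =>
        intro v _ h
        rw [zero_mul]
        exact h
      | succ j ihj =>
        intro v hv h
        have h1 : Kil (A : Set G) M₁ (j * K₁) v :=
          hlift _ v hv fun γ hγ => ihj _ (hD v hv γ (hNA (hΓN hγ))) (h γ hγ)
        have h2 := Kil.comp hK₁ (j * K₁) v h1
        rwa [← Nat.succ_mul] at h2
    exact ⟨k * K₁, fun v hv => hmain k v hv (hk v hv)⟩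

end Pool.Agent.EngelMc
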