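import Pool.Agent.EngelMc.Bdd

set_option autoImplicit false

open Subgroup
open scoped commutatorElement

universe u

namespace Pool.Agent.EngelMc

variable {G : Type u} [Group G]

theorem Kil.mono {S : Set G} {L L' : Subgroup G} (h : L ≤ L') :
    ∀ n v, Kil S L n v → Kil S L' n v := by
  intro n
  induction n with
  | zero => intro v hv; exact h hv
  | succ n ih => intro v hv t ht; exact ih _ (hv t ht)

theorem kil_of_lcs {K : Subgroup G} {S : Set G} (hS : S ⊆ (K : Set G)) {N : ℕ}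
    (hN : K.lowerCentralSeries N = ⊥) {v : G} (hv : v ∈ K) : Kil S ⊥ N v := by
  have key : ∀ m j, j + m = N → ∀ u ∈ K.lowerCentralSeries j, Kil S ⊥ m u := by
    intro m
    induction m with
    | zero =>
      intro j hj u hu
      have : j = N := by omega
      rw [this, hN] at hu
      exact hu
    | succ m ih =>
      intro j hj u hu t ht
      exact ih (j + 1) (by omega) _ (D_mem_comm hu (hS ht))
  exact key N 0 (by omega) v hv

theorem iter_mem_lcs {K : Subgroup G} {y z : G} (hy : y ∈ K) (hz : z ∈ K) (n : ℕ) :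
    (D y)^[n] z ∈ K.lowerCentralSeries n := by
  induction n with
  | zero => exact hz
  | succ n ih =>
    rw [Function.iterate_succ_apply']
    exact D_mem_comm ih hy

theorem kil_pi {Γ : Set G} {n : ℕ} : ∀ {f : ℕ → G},
    Kil ((Pi.constMonoidHom ℕ G) '' Γ) ⊥ n f → ∀ i, Kil Γ ⊥ n (f i) := by
  induction n with
  | zero =>
    intro f hf i
    have h1 : f = 1 := mem_bot.1 hf
    rw [h1]
    exact one_mem _
  | succ n ih =>
    intro f hf i t ht
    exact ih (hf _ ⟨t, ht, rfl⟩) i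

theorem iter_pi (y : G) (m : ℕ) (f : ℕ → G) (i : ℕ) :
    ((D (Pi.constMonoidHom ℕ G y))^[m] f) i = (D y)^[m] (f i) := by
  induction m generalizing f with
  | zero => rfl
  | succ m ih =>
    rw [Function.iterate_succ_apply, ih, Function.iterate_succ_apply]
    rfl

/-- **Lemma U** -/
theorem lemU {A M : Subgroup G} (hA : LN A) {Y : Set G} (hYA : closure Y = A)
    (hAM : A ≤ normalizer (M : Set G)) (hab : ∀ a ∈ M, ∀ b ∈ M, a * b = b * a) {m : ℕ}
    (hY : ∀ y ∈ Y, ∀ v ∈ M, (D y)^[m] v = 1) {Γ : Set G} (hΓf : Γ.Finite)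
    (hΓA : Γ ⊆ (A : Set G)) : ∃ k, ∀ v ∈ M, Kil Γ ⊥ k v := by
  by_contra hcon
  push Not at hcon
  choose w hwM hw using hcon
  obtain ⟨Y₀, hY₀f, hY₀Y, hΓY₀⟩ := subset_closure_finite (S := Y) hΓf (by rw [hYA]; exact hΓA)
  set T := closure Y₀ with hT
  have hTA : T ≤ A := by rw [← hYA]; exact closure_mono hY₀Y
  obtain ⟨c, hc⟩ := hA Y₀ hY₀f (subset_closure.trans hTA)
  let dg : G →* (ℕ → G) := Pi.constMonoidHom ℕ G
  let H : Subgroup (ℕ → G) := Subgroup.pi Set.univ (fun _ => M)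
  have hHmem : ∀ f : ℕ → G, f ∈ H ↔ ∀ i, f i ∈ M := by
    intro f
    simp [H, Subgroup.mem_pi]
  set dT : Subgroup (ℕ → G) := T.map dg with hdT
  have hdTc : dT.lowerCentralSeries c = ⊥ := by
    rw [hdT, ← Subgroup.map_lowerCentralSeries, hc, Subgroup.map_bot]
  have hdH : dT ≤ normalizer (H : Set (ℕ → G)) := by
    rintro _ ⟨t, ht, rfl⟩
    have htM := hAM (hTA ht)
    refine mem_norm ?_ ?_
    · intro f hf
      rw [hHmem] at hf ⊢
      intro i
      exact norm_conj htM (hf i)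
    · intro f hf
      rw [hHmem] at hf ⊢
      intro i
      exact norm_conj' htM (hf i)
  set F := H ⊔ dT with hF
  have hFc : F.lowerCentralSeries c ≤ H := by
    refine (lcs_sup hdH c).trans ?_
    rw [hdTc, sup_bot_eq]
  have hFH : F ≤ normalizer (H : Set (ℕ → G)) := sup_le le_normalizer hdH
  let X : Set (ℕ → G) := {p | ∀ g ∈ F, ∃ n, (D p)^[n] (D g p) = 1}
  have hconj : ∀ g ∈ F, ∀ p ∈ X, g * p * g⁻¹ ∈ X := by
    intro g hg p hp f hf
    obtain ⟨n, hn⟩ := hp (g⁻¹ * f * g) (mul_mem (mul_mem (inv_mem hg) hf) hg)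
    refine ⟨n, ?_⟩
    have h1 : D f (g * p * g⁻¹) = g * D (g⁻¹ * f * g) p * g⁻¹ := by
      rw [← D_conj']; congr 1; group
    rw [h1, D_iter_conj', hn]
    group
  have hLNF : LN F := by
    refine LN_ext (X := X) (n := c) ?_ le_sup_left hFc hFH ?_ ?_ ?_
    · refine LN_of_nil (nil_of_comm ?_)
      intro a ha b hb
      rw [hHmem] at ha hb
      funext i
      exact hab _ (ha i) _ (hb i)
    · intro g hg
      refine mem_snorm (hconj g hg) ?_
      intro p hp
      have := hconj g⁻¹ (inv_mem hg) p hp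
      rwa [inv_inv] at this
    · refine sup_le (fun h hh => subset_closure (Or.inl hh)) ?_
      rw [hdT, hT, MonoidHom.map_closure, closure_le]
      rintro _ ⟨y, hy, rfl⟩
      have hyF : dg y ∈ F := (le_sup_right : dT ≤ F) ⟨y, subset_closure hy, rfl⟩
      refine subset_closure (Or.inr ⟨?_, hyF⟩)
      intro g hg
      have hz : D g (dg y) ∈ F := zc_D hg hyF
      have h1 : (D (dg y))^[c] (D g (dg y)) ∈ H := hFc (iter_mem_lcs hyF hz c)
      refine ⟨m + c, ?_⟩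
      rw [Function.iterate_add_apply]
      rw [hHmem] at h1
      funext i
      have h2 := iter_pi y m ((D (dg y))^[c] (D g (dg y))) i
      exact h2.trans (hY y (hY₀Y hy) _ (h1 i))
    · intro y hy _ g hg
      exact hy g hg
  have hwH : w ∈ H := (hHmem w).2 hwM
  have hwF : w ∈ F := (le_sup_left : H ≤ F) hwH
  have hΓF : dg '' Γ ⊆ (F : Set (ℕ → G)) := by
    rintro _ ⟨γ, hγ, rfl⟩
    exact (le_sup_right : dT ≤ F) ⟨γ, hΓY₀ hγ, rfl⟩
  obtain ⟨N, hN⟩ := hLNF (insert w (dg '' Γ)) ((hΓf.image dg).insert w)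
    (Set.insert_subset hwF hΓF)
  have h1 : Kil (dg '' Γ) ⊥ N w :=
    kil_of_lcs ((Set.subset_insert _ _).trans subset_closure) hN
      (subset_closure (Set.mem_insert _ _))
  exact hw N (kil_pi h1 N)

/-- the second centre as a subgroup -/
def z2s (B : Subgroup G) : Subgroup G where
  carrier := z2 B
  one_mem' := ⟨one_mem _, fun b _ => by rw [D_one_right]; exact one_mem _⟩
  mul_mem' := by
    rintro v w ⟨hv, hv'⟩ ⟨hw, hw'⟩
    refine ⟨mul_mem hv hw, fun b hb => ?_⟩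
    rw [D_mul_right, zc_conj (hv' b hb) hw]
    exact mul_mem (hv' b hb) (hw' b hb)
  inv_mem' := by
    rintro v ⟨hv, hv'⟩
    refine ⟨inv_mem hv, fun b hb => ?_⟩
    rw [D_inv_right, zc_conj' (inv_mem (hv' b hb)) hv]
    exact inv_mem (hv' b hb)

theorem centralizer_triple (S : Set G) :
    centralizer (centralizer (centralizer S : Set G) : Set G) = centralizer S := by
  refine le_antisymm ?_ ?_
  · refine centralizer_le ?_
    intro s hs
    rw [SetLike.mem_coe, mem_centralizer_iff]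
    intro g hg
    exact (mem_centralizer_iff.1 hg s hs).symm
  · intro g hg
    rw [mem_centralizer_iff]
    intro h hh
    exact (mem_centralizer_iff.1 hh g hg).symm

/-- **S4** the pairing step -/
theorem pairing (hmc : MC G) {A B : Subgroup G} (hA : LN A) (hBA : B ≤ A)
    (hAB : A ≤ normalizer (B : Set G)) {K : ℕ} (hZ : ∀ z ∈ zc B, Kil (A : Set G) ⊥ K z) :
    ∃ K', ∀ b ∈ B, Kil (A : Set G) (B ⊓ centralizer (z2 B)) K' b := by
  classical
  obtain ⟨C, _, ⟨U, hUz, hAU, hCU, K', hK'⟩, hmin⟩ := hmc.exists_min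
    (fun C => ∃ U : Set G, U ⊆ z2 B ∧ A ≤ normalizer U ∧ C = centralizer U ∧
      ∃ K', ∀ b ∈ B, Kil (A : Set G) (B ⊓ C) K' b)
    ⟨⊤, ⟨∅, (by ext g; simp [mem_centralizer_iff])⟩, ∅, Set.empty_subset _,
      (by rw [normalizer_empty]; exact le_top), (by ext g; simp [mem_centralizer_iff]), 0,
      fun b hb => mem_inf.2 ⟨hb, mem_top _⟩⟩
  set W : Subgroup G := B ⊓ C with hW
  by_cases hWz : W ≤ centralizer (z2 B)
  · exact ⟨K', fun b hb => Kil.mono (le_inf inf_le_left hWz) _ _ (hK' b hb)⟩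
  exfalso
  have hAz2 : ∀ g ∈ A, g ∈ normalizer (z2 B) := fun g hg => z2_norm (hAB hg)
  have hAC : ∀ g ∈ A, g ∈ normalizer (C : Set G) := by
    intro g hg
    rw [hCU]
    exact norm_centralizer (hAU hg)
  have hAW : ∀ g ∈ A, g ∈ normalizer (W : Set G) := fun g hg => norm_inf (hAB hg) (hAC g hg)
  set U' : Subgroup G := z2s B ⊓ centralizer (W : Set G) with hU'
  have hAz2s : ∀ g ∈ A, g ∈ normalizer (z2s B : Set G) := fun g hg => hAz2 g hg
  have hAU' : ∀ g ∈ A, g ∈ normalizer (U' : Set G) :=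
    fun g hg => norm_inf (hAz2s g hg) (norm_centralizer (hAW g hg))
  have hUU' : ∀ x ∈ U, x ∈ U' := by
    intro x hx
    refine mem_inf.2 ⟨hUz hx, mem_centralizer_iff.2 fun w hw => ?_⟩
    have h1 := (mem_inf.1 hw).2
    rw [hCU] at h1
    exact (mem_centralizer_iff.1 h1 x hx).symm
  have hDU' : ∀ g ∈ A, ∀ x ∈ U', D g x ∈ U' := by
    intro g hg x hx
    rw [D_eq]
    exact mul_mem (inv_mem hx) (norm_conj' (hAU' g hg) hx)
  let Fd : Set G → Set G := fun Δ => {v | v ∈ z2s B ∧ ∀ δ ∈ Δ, D δ v ∈ U'}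
  have hFanti : ∀ Δ Δ' : Set G, Δ ⊆ Δ' → Fd Δ' ⊆ Fd Δ :=
    fun Δ Δ' h v hv => ⟨hv.1, fun δ hδ => hv.2 δ (h hδ)⟩
  obtain ⟨_, _, ⟨Δ₀, hΔ₀f, hΔ₀A, rfl⟩, hΔmin⟩ := hmc.exists_min
    (fun C' => ∃ Δ : Set G, Δ.Finite ∧ Δ ⊆ (A : Set G) ∧
      C' = centralizer (centralizer (Fd Δ) : Set G))
    ⟨_, ⟨_, rfl⟩, ∅, Set.finite_empty, Set.empty_subset _, rfl⟩
  have hstab : ∀ Δ : Set G, Δ.Finite → Δ ⊆ (A : Set G) → Δ₀ ⊆ Δ →
      centralizer (Fd Δ) = centralizer (Fd Δ₀) := by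
    intro Δ hΔf hΔA hΔ
    have hle : centralizer (centralizer (Fd Δ) : Set G) ≤
        centralizer (centralizer (Fd Δ₀) : Set G) :=
      centralizer_le (centralizer_le (hFanti _ _ hΔ))
    have heq : centralizer (centralizer (Fd Δ) : Set G) =
        centralizer (centralizer (Fd Δ₀) : Set G) := by
      by_contra hne
      exact hΔmin _ ⟨_, rfl⟩ (lt_of_le_of_ne hle hne) ⟨Δ, hΔf, hΔA, rfl⟩
    rw [← centralizer_triple (Fd Δ), heq, centralizer_triple]
  set C₂ : Subgroup G := centralizer (Fd Δ₀) with hC₂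
  set U₂ : Set G := {v | v ∈ z2 B ∧ v ∈ centralizer (C₂ : Set G)} with hU₂
  have hFU₂ : Fd Δ₀ ⊆ U₂ := by
    intro v hv
    refine ⟨hv.1, mem_centralizer_iff.2 fun g hg => ?_⟩
    exact (mem_centralizer_iff.1 hg v hv).symm
  have hcU₂ : centralizer U₂ = C₂ := by
    refine le_antisymm (centralizer_le hFU₂) ?_
    intro g hg
    rw [mem_centralizer_iff]
    intro v hv
    exact (mem_centralizer_iff.1 hv.2 g hg).symm
  have hAC₂ : ∀ g ∈ A, g ∈ normalizer (C₂ : Set G) := by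
    intro g hg
    have h1 : centralizer (Fd (insert g Δ₀)) = C₂ :=
      hstab _ (hΔ₀f.insert g) (Set.insert_subset hg hΔ₀A) (Set.subset_insert _ _)
    rw [← h1]
    refine norm_centralizer (mem_snorm ?_ ?_)
    · rintro v ⟨hv, hv'⟩
      have hu : D g⁻¹ v ∈ U' := by
        rw [D_inv_left]
        exact norm_conj (hAU' g hg) (inv_mem (hv' g (Set.mem_insert _ _)))
      have h2 : g * v * g⁻¹ = v * D g⁻¹ v := by simp only [D]; group
      rw [h2]
      refine ⟨mul_mem hv (mem_inf.1 hu).1, fun δ hδ => ?_⟩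
      have hδA : δ ∈ A := Set.insert_subset hg hΔ₀A hδ
      rw [D_mul_right]
      exact mul_mem (mul_mem (mul_mem (inv_mem hu) (hv' δ hδ)) hu) (hDU' δ hδA _ hu)
    · rintro v ⟨hv, hv'⟩
      have hu : D g v ∈ U' := hv' g (Set.mem_insert _ _)
      have h2 : g⁻¹ * v * g = v * D g v := by simp only [D]; group
      rw [h2]
      refine ⟨mul_mem hv (mem_inf.1 hu).1, fun δ hδ => ?_⟩
      have hδA : δ ∈ A := Set.insert_subset hg hΔ₀A hδ
      rw [D_mul_right]
      exact mul_mem (mul_mem (mul_mem (inv_mem hu) (hv' δ hδ)) hu) (hDU' δ hδA _ hu)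
  have hAU₂ : A ≤ normalizer U₂ := by
    intro g hg
    have h1 := norm_centralizer (hAC₂ g hg)
    have h2 := hAz2 g hg
    exact snorm_inter h2 h1
  have hC₂C : C₂ ≤ C := by
    rw [hCU]
    refine centralizer_le ?_
    intro x hx
    exact ⟨hUz hx, fun δ hδ => hDU' δ (hΔ₀A hδ) x (hUU' x hx)⟩
  -- there is an element of `Fd Δ₀` outside `U'`
  have hex : ∃ v ∈ Fd Δ₀, v ∉ U' := by
    have h1 : ∃ v₀ ∈ z2 B, v₀ ∉ U' := by
      by_contra hcon
      push Not at hcon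
      apply hWz
      intro w hw
      rw [mem_centralizer_iff]
      intro v hv
      exact (mem_centralizer_iff.1 (mem_inf.1 (hcon v hv)).2 w hw).symm
    obtain ⟨v₀, hv₀, hv₀U'⟩ := h1
    have hv₀A : v₀ ∈ A := hBA hv₀.1
    obtain ⟨n, hn⟩ := hA (insert v₀ Δ₀) (hΔ₀f.insert v₀) (Set.insert_subset hv₀A hΔ₀A)
    set T := closure (insert v₀ Δ₀) with hT
    have hexk : ∃ k, ∀ v ∈ T.lowerCentralSeries k, v ∈ z2 B → v ∈ U' := by
      refine ⟨n, fun v hv _ => ?_⟩
      rw [hn, mem_bot] at hv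
      rw [hv]
      exact one_mem _
    rcases hf : Nat.find hexk with _ | k
    · exfalso
      have := Nat.find_spec hexk
      rw [hf] at this
      exact hv₀U' (this v₀ (subset_closure (Set.mem_insert _ _)) hv₀)
    · have h2 := Nat.find_spec hexk
      rw [hf] at h2
      have h3 : ¬ ∀ v ∈ T.lowerCentralSeries k, v ∈ z2 B → v ∈ U' :=
        Nat.find_min hexk (by omega)
      push Not at h3
      obtain ⟨v, hv, hvz, hvU'⟩ := h3
      refine ⟨v, ⟨hvz, fun δ hδ => ?_⟩, hvU'⟩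
      refine h2 _ (D_mem_comm hv (subset_closure (Set.mem_insert_of_mem _ hδ))) ?_
      have hδA : δ ∈ A := hΔ₀A hδ
      have h4 : D δ v ∈ z2s B := by
        rw [D_eq]
        exact mul_mem (inv_mem (show v ∈ z2s B from hvz)) (norm_conj' (hAz2s δ hδA) hvz)
      exact h4
  have hC₂lt : C₂ < C := by
    refine lt_of_le_of_ne hC₂C fun heq => ?_
    obtain ⟨v, hv, hvU'⟩ := hex
    apply hvU'
    refine mem_inf.2 ⟨hv.1, mem_centralizer_iff.2 fun w hw => ?_⟩
    have hwC : w ∈ C₂ := by rw [heq]; exact (mem_inf.1 hw).2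
    exact (mem_centralizer_iff.1 hwC v hv).symm
  -- the key computation
  have hbeta : ∀ w ∈ W, ∀ δ ∈ A, ∀ v ∈ z2s B, D δ v ∈ U' → D v (D δ w) = D δ (D v w) := by
    intro w hw δ hδ v hv hδv
    have hwB : w ∈ B := (mem_inf.1 hw).1
    have hvB : v ∈ B := hv.1
    have hwδ : δ⁻¹ * w * δ ∈ W := norm_conj' (hAW δ hδ) hw
    have hwδB : δ⁻¹ * w * δ ∈ B := (mem_inf.1 hwδ).1
    have hβ : ∀ x ∈ B, D v x ∈ zc B := by
      intro x hx
      rw [← D_inv]
      exact inv_mem (hv.2 x hx)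
    -- `[w^δ, v] = [w, v]^δ`
    have h1 : D v (δ⁻¹ * w * δ) = δ⁻¹ * D v w * δ := by
      have h2 : δ⁻¹ * v * δ = v * D δ v := by simp only [D]; group
      have h3 : D (v * D δ v) (δ⁻¹ * w * δ) = D v (δ⁻¹ * w * δ) := by
        have hu : D δ v ∈ U' := hδv
        have huB : D δ v ∈ B := (mem_inf.1 hu).1.1
        have h4 : D (D δ v) (δ⁻¹ * w * δ) = 1 := by
          have h5 := mem_centralizer_iff.1 (mem_inf.1 hu).2 _ hwδ
          generalize D δ v = u at h5
          generalize δ⁻¹ * w * δ = x at h5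
          simp only [D]
          rw [mul_assoc, h5]; group
        rw [D_mul_left, h4, one_mul, zc_conj (hβ _ hwδB) huB]
      rw [← h3, ← h2, D_conj]
    have h6 : D δ w = w⁻¹ * (δ⁻¹ * w * δ) := D_eq δ w
    rw [h6, D_mul_right, h1, D_inv_right]
    have h7 : D v w ∈ zc B := hβ w hwB
    have h8 : (δ⁻¹ * w * δ)⁻¹ * (w * (D v w)⁻¹ * w⁻¹) * (δ⁻¹ * w * δ) = (D v w)⁻¹ := by
      rw [zc_conj' (inv_mem h7) hwB, zc_conj (inv_mem h7) hwδB]
    rw [h8, D_eq δ (D v w)]
  have hlift : ∀ n, ∀ w ∈ W, ∀ Δ : Set G, Δ.Finite → Δ ⊆ (A : Set G) → Δ₀ ⊆ Δ →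
      (∀ v ∈ Fd Δ, Kil (A : Set G) ⊥ n (D v w)) → Kil (A : Set G) (B ⊓ C₂) n w := by
    intro n
    induction n with
    | zero =>
      intro w hw Δ hΔf hΔA hΔ h
      refine mem_inf.2 ⟨(mem_inf.1 hw).1, ?_⟩
      rw [← hstab Δ hΔf hΔA hΔ, mem_centralizer_iff]
      intro v hv
      have h1 : D v w = 1 := mem_bot.1 (h v hv)
      have h2 : v * w = w * v * (D v w)⁻¹ := by simp only [D]; group
      rw [h2, h1]; group
    | succ n ih =>
      intro w hw Δ hΔf hΔA hΔ h δ hδ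
      have hδw : D δ w ∈ W := by
        rw [D_eq]
        exact mul_mem (inv_mem hw) (norm_conj' (hAW δ hδ) hw)
      refine ih _ hδw (insert δ Δ) (hΔf.insert δ) (Set.insert_subset hδ hΔA)
        (hΔ.trans (Set.subset_insert _ _)) ?_
      intro v hv
      rw [hbeta w hw δ hδ v hv.1 (hv.2 δ (Set.mem_insert _ _))]
      exact h v (hFanti _ _ (Set.subset_insert _ _) hv) δ hδ
  have hWK : ∀ w ∈ W, Kil (A : Set G) (B ⊓ C₂) K w := by
    intro w hw
    refine hlift K w hw Δ₀ hΔ₀f hΔ₀A le_rfl ?_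
    intro v hv
    refine hZ _ ?_
    rw [← D_inv]
    exact inv_mem (hv.1.2 w (mem_inf.1 hw).1)
  exact hmin C₂ ⟨_, rfl⟩ hC₂lt ⟨U₂, fun v hv => hv.1, hAU₂, hcU₂.symm, K' + K,
    fun b hb => Kil.comp hWK K' b (hK' b hb)⟩

end Pool.Agent.EngelMc
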