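import Pool.Agent.EngelMc.Bdd2

set_option autoImplicit false

open Subgroup
open scoped commutatorElement

universe u

namespace Pool.Agent.EngelMc

variable {G : Type u} [Group G]

/-- **S5** a locally nilpotent subgroup of an `𝔐_c`-group which is generated by elements acting
with bounded Engel length is nilpotent -/
theorem nil_main (hmc : MC G) {A : Subgroup G} (hA : LN A) {Y : Set G} (hYA : closure Y = A)
    {m : ℕ} (hY : ∀ y ∈ Y, ∀ v : G, (D y)^[m] v = 1) : Nil A := by
  obtain ⟨C, hC, ⟨hAC, K, hK⟩, hmin⟩ := hmc.exists_min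
    (fun C => A ≤ normalizer (C : Set G) ∧ ∃ K, ∀ b ∈ A, Kil (A : Set G) (A ⊓ C) K b)
    ⟨⊤, ⟨∅, (by ext g; simp [mem_centralizer_iff])⟩, fun g _ => le_normalizer (mem_top g), 0,
      fun b hb => mem_inf.2 ⟨hb, mem_top _⟩⟩
  set B : Subgroup G := A ⊓ C with hB
  have hAB : A ≤ normalizer (B : Set G) := fun g hg => norm_inf (le_normalizer hg) (hAC hg)
  have hBA : B ≤ A := inf_le_left
  have hlcs : A.lowerCentralSeries K ≤ B := lcs_le_of_kil hBA hAB hK
  have hzA : A ≤ normalizer (zc B : Set G) := fun g hg => zc_norm (hAB hg)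
  have hzab : ∀ a ∈ zc B, ∀ b ∈ zc B, a * b = b * a := fun a ha b hb =>
    zc_comm hb (zc_le B ha)
  have hBz : B ≤ centralizer (zc B : Set G) := by
    intro g hg
    rw [mem_centralizer_iff]
    intro z hz
    exact (zc_comm hz hg).symm
  obtain ⟨K₁, hK₁⟩ := nl_aux hmc K (zc B) hzA hzab
    (fun Γ hΓf hΓA => lemU hA hYA hzA hzab (fun y hy v _ => hY y hy v) hΓf hΓA)
    (hlcs.trans hBz)
  obtain ⟨K', hK'⟩ := pairing hmc hA hBA hAB hK₁
  by_cases hab : ∀ a ∈ B, ∀ b ∈ B, a * b = b * a
  · refine ⟨K + K₁, ?_⟩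
    have h1 : ∀ v ∈ B, Kil (A : Set G) ⊥ K₁ v := by
      intro v hv
      refine hK₁ v (mem_inf.2 ⟨hv, mem_centralizer_iff.2 fun b hb => hab b hb v hv⟩)
    have h2 : ∀ b ∈ A, Kil (A : Set G) ⊥ (K + K₁) b := fun b hb => Kil.comp h1 K b (hK b hb)
    refine le_bot_iff.1 (lcs_le_of_kil bot_le ?_ h2)
    intro g _
    refine mem_norm ?_ ?_
    · intro b hb
      rw [mem_bot] at hb
      rw [hb]; simp
    · intro b hb
      rw [mem_bot] at hb
      rw [hb]; simp
  · exfalso
    obtain ⟨v, hv, hvZ⟩ := exists_z2 hmc (hA.mono hBA) hab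
    set C' : Subgroup G := C ⊓ centralizer (z2 B) with hC'
    have hC'lt : C' < C := by
      refine lt_of_le_of_ne inf_le_left fun heq => hvZ ?_
      refine mem_inf.2 ⟨hv.1, mem_centralizer_iff.2 fun g hg => ?_⟩
      have hgC : g ∈ C' := by rw [heq]; exact (mem_inf.1 hg).2
      exact (mem_centralizer_iff.1 (mem_inf.1 hgC).2 v hv).symm
    refine hmin C' (hC.inf _) hC'lt
      ⟨fun g hg => norm_inf (hAC hg) (norm_centralizer (z2_norm (hAB hg))), K + K', ?_⟩
    have h3 : A ⊓ C' = B ⊓ centralizer (z2 B) := by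
      rw [hC', hB, inf_assoc]
    rw [h3]
    exact fun b hb => Kil.comp hK' K b (hK b hb)

/-! ### Uniform levels -/

theorem hall_star_unif {T₁ : Set G} {x : G} (hx : x ∈ normalizer (closure T₁ : Set G)) {n : ℕ}
    (hE : ∀ t ∈ T₁, (D x)^[n] t = 1) (i : ℕ) :
    ∀ g ∈ (closure T₁).lowerCentralSeries i, g ∈ (lev (lcs_sec hx i) ((i + 1) * n)).1 := by
  set T := closure T₁ with hT
  have hlT : ∀ i, T.lowerCentralSeries i ≤ T :=
    fun i => Subgroup.lowerCentralSeries_antitone T (Nat.zero_le i)
  induction i with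
  | zero =>
    have h1 : closure T₁ ≤ (lev (lcs_sec hx 0) ((0 + 1) * n)).1 := by
      rw [closure_le]
      intro t ht
      refine mem_lev_of_iter _ (subset_closure ht) ?_
      rw [zero_add, one_mul, hE t ht]
      exact one_mem _
    exact h1
  | succ i ih =>
    set h' := lcs_sec hx (i + 1) with hh'
    have hTE : ∀ j, T ≤ normalizer ((lev h' j).1 : Set G) := by
      intro j s hs
      refine mem_norm ?_ ?_
      · intro b hb
        have h1 : s * b * s⁻¹ = b * D s⁻¹ b := by simp only [D]; group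
        rw [h1]
        exact mul_mem hb ((lev h' j).2.le (D_mem_comm ((lev h' j).2.le' hb) (inv_mem hs)))
      · intro b hb
        have h1 : s⁻¹ * b * s = b * D s b := by simp only [D]; group
        rw [h1]
        exact mul_mem hb ((lev h' j).2.le (D_mem_comm ((lev h' j).2.le' hb) hs))
    have hQ : ∀ N k l, k + l = N → ∀ g ∈ (lev (lcs_sec hx i) k).1, ∀ t ∈ T,
        (D x)^[l] t = 1 → D t g ∈ (lev h' N).1 := by
      intro N
      induction N using Nat.strong_induction_on with
      | _ N IH =>
        intro k l hkl g hg t ht htl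
        rcases k with _ | k
        · exact (lev h' N).2.le (D_mem_comm hg ht)
        rcases l with _ | l
        · rw [Function.iterate_zero_apply] at htl
          rw [htl, D_one_left]
          exact one_mem _
        have hgi : g ∈ T.lowerCentralSeries i := hg.1
        set g' := D x g with hg'
        have hg'k : g' ∈ (lev (lcs_sec hx i) k).1 := hg.2
        have hg'i : g' ∈ T.lowerCentralSeries i := (lev (lcs_sec hx i) k).2.le' hg'k
        set t' := D x t with ht'
        have ht'T : t' ∈ T := by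
          rw [ht', D_eq]
          exact mul_mem (inv_mem ht) (norm_conj' hx ht)
        have ht'l : (D x)^[l] t' = 1 := by
          rw [Function.iterate_succ_apply] at htl
          exact htl
        obtain ⟨M, rfl⟩ : ∃ M, N = M + 1 := ⟨k + 1 + l, by omega⟩
        set Ei := (lev h' M).1 with hEi
        have hgood : Good _ _ x Ei := (lev h' M).2
        have hA1 : D t' g ∈ Ei := IH M (by omega) (k + 1) l (by omega) g hg t' ht'T ht'l
        have hA2 : D t' g' ∈ Ei :=
          lev_mono h' (show k + l ≤ M by omega)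
            (IH (k + l) (by omega) k l rfl g' hg'k t' ht'T ht'l)
        have hB : D t g' ∈ Ei := IH M (by omega) k (l + 1) (by omega) g' hg'k t ht htl
        have hu : D t g ∈ T.lowerCentralSeries (i + 1) := D_mem_comm hgi ht
        refine (mem_lev_succ h' M).2 ⟨hu, ?_⟩
        set u := D t g with hudef
        have hid : D x u = (u⁻¹ * ((g'⁻¹ * D t' g * g') * D t' g') * u) *
            (D (g' * t') u) * (t'⁻¹ * D t g' * t') := by
          simp only [hudef, hg', ht', D]
          group
        rw [hid]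
        have huT : u ∈ T := hlT _ hu
        have hg'T : g' ∈ T := hlT _ hg'i
        refine mul_mem (mul_mem ?_ ?_) ?_
        · exact norm_conj' (hTE M huT) (mul_mem (norm_conj' (hTE M hg'T) hA1) hA2)
        · exact hgood.le (D_mem_comm hu (mul_mem hg'T ht'T))
        · exact norm_conj' (hTE M ht'T) hB
    have hmain : ⁅T.lowerCentralSeries i, T⁆ ≤ (lev h' ((i + 1 + 1) * n)).1 := by
      refine comm_le_of_D ?_
      intro t ht g hg
      refine CL1 (S := T₁) (fun s hs => hTE _ (subset_closure hs)) ?_ t ht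
      intro s hs
      exact hQ _ ((i + 1) * n) n (by ring) g (ih g hg) s (subset_closure hs) (hE s hs)
    exact hmain

/-- a finite chain of length `n` from `H` to `K`, each term normal in the next one -/
def Chain (H K : Subgroup G) (n : ℕ) : Prop :=
  ∃ f : ℕ → Subgroup G, f 0 = H ∧ f n = K ∧
    ∀ i < n, f i ≤ f (i + 1) ∧ f (i + 1) ≤ normalizer (f i : Set G)

theorem Chain.refl (H : Subgroup G) : Chain H H 0 :=
  ⟨fun _ => H, rfl, rfl, fun i hi => absurd hi (Nat.not_lt_zero i)⟩

theorem Chain.one (H : Subgroup G) : Chain H H 1 :=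
  ⟨fun _ => H, rfl, rfl, fun _ _ => ⟨le_rfl, le_normalizer⟩⟩

theorem Chain.trans {H K L : Subgroup G} {m n : ℕ} (h1 : Chain H K m) (h2 : Chain K L n) :
    Chain H L (m + n) := by
  obtain ⟨f, hf0, hfm, hfs⟩ := h1
  obtain ⟨g, hg0, hgn, hgs⟩ := h2
  set h : ℕ → Subgroup G := fun i => if i ≤ m then f i else g (i - m) with hh
  have hle : ∀ i ≤ m, h i = f i := fun i hi => if_pos hi
  have hge : ∀ j, h (m + j) = g j := by
    intro j
    rcases j with _ | j
    · rw [add_zero, hle m le_rfl, hfm, hg0]
    · have h1 : ¬ m + (j + 1) ≤ m := by omega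
      have h2 : m + (j + 1) - m = j + 1 := by omega
      simp only [hh, if_neg h1, h2]
  refine ⟨h, ?_, ?_, ?_⟩
  · rw [hle 0 (Nat.zero_le m), hf0]
  · rw [hge, hgn]
  · intro i hi
    rcases lt_or_ge i m with h1 | h1
    · rw [hle i h1.le, hle (i + 1) h1]
      exact hfs i h1
    · obtain ⟨j, rfl⟩ := Nat.exists_eq_add_of_le h1
      rw [add_assoc, hge, hge]
      exact hgs j (by omega)

theorem chain_sec {B B' : Subgroup G} {x : G} (h : Sec B B' x) {k : ℕ}
    (hB : ∀ b ∈ B, b ∈ (lev h k).1) : Chain (zpowers x ⊔ B') (zpowers x ⊔ B) k := by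
  set L : ℕ → Subgroup G := fun n => zpowers x ⊔ (lev h n).1 with hL
  have hmono : ∀ n, L n ≤ L (n + 1) := fun n => sup_le_sup_left (lev_mono h (Nat.le_succ n)) _
  have hnorm : ∀ n, L (n + 1) ≤ normalizer (L n : Set G) := by
    intro n
    refine sup_le (le_sup_left.trans le_normalizer) ?_
    intro b hb
    have hxL : x ∈ L n := (le_sup_left : zpowers x ≤ _) (mem_zpowers x)
    have hlL : (lev h n).1 ≤ L n := le_sup_right
    have hLcl : L n = closure (insert x ((lev h n).1 : Set G)) := by
      refine le_antisymm (sup_le ?_ ?_) ?_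
      · rw [zpowers_le]; exact subset_closure (Set.mem_insert _ _)
      · exact fun y hy => subset_closure (Set.mem_insert_of_mem _ hy)
      · rw [closure_le]
        rintro y (rfl | hy)
        · exact hxL
        · exact hlL hy
    have key : ∀ b ∈ (lev h (n + 1)).1, ∀ y ∈ insert x ((lev h n).1 : Set G),
        b⁻¹ * y * b ∈ L n := by
      rintro b hb y (rfl | hy)
      · have h1 : b⁻¹ * y * b = y * (D y b)⁻¹ := by simp only [D]; group
        rw [h1]
        exact mul_mem hxL (inv_mem (hlL hb.2))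
      · exact hlL (norm_conj' ((lev h n).2.BL hb.1) hy)
    rw [hLcl]
    refine mem_norm_closure ?_ ?_
    · intro y hy
      have := key b⁻¹ (inv_mem hb) y hy
      rw [inv_inv] at this
      rwa [← hLcl]
    · intro y hy
      rw [← hLcl]
      exact key b hb y hy
  have hk : L k = zpowers x ⊔ B := by
    have h1 : (lev h k).1 = B := le_antisymm (lev h k).2.le' hB
    rw [hL]
    simp only [h1]
  exact ⟨L, rfl, hk, fun i _ => ⟨hmono i, hnorm i⟩⟩

/-- **S6** uniform chains -/
theorem chain_main {T₁ : Set G} {x : G} (hx : x ∈ normalizer (closure T₁ : Set G)) {n c : ℕ}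
    (hc : (closure T₁).lowerCentralSeries c = ⊥) (hE : ∀ t ∈ T₁, (D x)^[n] t = 1) :
    Chain (zpowers x) (zpowers x ⊔ closure T₁) (∑ i ∈ Finset.range c, (i + 1) * n) := by
  have key : ∀ j, Chain (zpowers x ⊔ (closure T₁).lowerCentralSeries j)
      (zpowers x ⊔ closure T₁) (∑ i ∈ Finset.range j, (i + 1) * n) := by
    intro j
    induction j with
    | zero =>
      rw [Finset.sum_range_zero]
      exact Chain.refl _
    | succ j ih =>
      have h1 := (chain_sec (lcs_sec hx j) (hall_star_unif hx hE j)).trans ih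
      rwa [add_comm ((j + 1) * n), ← Finset.sum_range_succ] at h1
  have h1 := key c
  rwa [hc, sup_bot_eq] at h1

end Pool.Agent.EngelMc
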