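import Pool.Agent.EngelMc.Final

set_option autoImplicit false

open Subgroup
open scoped commutatorElement

namespace Pool.Agent.EngelMc

variable {G : Type*} [Group G]

/-! ### Levels of a locally unipotent action on an abelian section `B / B'` -/

/-- A section `B / B'` with abelian quotient, both normalized by `x`. -/
structure Sec (B B' : Subgroup G) (x : G) : Prop where
  le : B' ≤ B
  comm : ∀ s ∈ B, ∀ t ∈ B, D t s ∈ B'
  xB : x ∈ normalizer (B : Set G)
  xB' : x ∈ normalizer (B' : Set G)

/-- good intermediate subgroups -/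
structure Good (B B' : Subgroup G) (x : G) (L : Subgroup G) : Prop where
  le : B' ≤ L
  le' : L ≤ B
  xL : x ∈ normalizer (L : Set G)
  BL : B ≤ normalizer (L : Set G)

/-- the next level -/
def nxt (B : Subgroup G) (x : G) (L : Subgroup G) (hL : B ≤ normalizer (L : Set G)) :
    Subgroup G where
  carrier := {b | b ∈ B ∧ D x b ∈ L}
  one_mem' := ⟨one_mem _, by rw [D_one_right]; exact one_mem _⟩
  mul_mem' := by
    rintro a b ⟨ha, ha'⟩ ⟨hb, hb'⟩
    refine ⟨mul_mem ha hb, ?_⟩
    rw [D_mul_right]
    exact mul_mem (norm_conj' (hL hb) ha') hb'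
  inv_mem' := by
    rintro a ⟨ha, ha'⟩
    refine ⟨inv_mem ha, ?_⟩
    rw [D_inv_right]
    exact norm_conj (hL ha) (inv_mem ha')

theorem Sec.good_bot {B B' : Subgroup G} {x : G} (h : Sec B B' x) : Good B B' x B' where
  le := le_rfl
  le' := h.le
  xL := h.xB'
  BL := by
    intro s hs
    refine mem_norm ?_ ?_
    · intro b hb
      have h1 : s * b * s⁻¹ = b * D s⁻¹ b := by simp only [D]; group
      rw [h1]
      exact mul_mem hb (h.comm b (h.le hb) s⁻¹ (inv_mem hs))
    · intro b hb
      have h1 : s⁻¹ * b * s = b * D s b := by simp only [D]; group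
      rw [h1]
      exact mul_mem hb (h.comm b (h.le hb) s hs)

theorem Good.next {B B' L : Subgroup G} {x : G} (h : Sec B B' x) (hL : Good B B' x L) :
    Good B B' x (nxt B x L hL.BL) where
  le := by
    intro b hb
    refine ⟨h.le hb, hL.le ?_⟩
    rw [D_eq]
    exact mul_mem (inv_mem hb) (norm_conj' h.xB' hb)
  le' := fun b hb => hb.1
  xL := by
    refine mem_norm ?_ ?_
    · rintro b ⟨hb, hb'⟩
      refine ⟨norm_conj h.xB hb, ?_⟩
      have h1 : D x (x * b * x⁻¹) = x * D x b * x⁻¹ := by simp only [D]; group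
      rw [h1]
      exact norm_conj hL.xL hb'
    · rintro b ⟨hb, hb'⟩
      refine ⟨norm_conj' h.xB hb, ?_⟩
      have h1 : D x (x⁻¹ * b * x) = x⁻¹ * D x b * x := by simp only [D]; group
      rw [h1]
      exact norm_conj' hL.xL hb'
  BL := by
    have hB'n : B' ≤ nxt B x L hL.BL := by
      intro b hb
      refine ⟨h.le hb, hL.le ?_⟩
      rw [D_eq]
      exact mul_mem (inv_mem hb) (norm_conj' h.xB' hb)
    intro s hs
    refine mem_norm ?_ ?_
    · intro b hb
      have h1 : s * b * s⁻¹ = b * D s⁻¹ b := by simp only [D]; group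
      rw [h1]
      exact mul_mem hb (hB'n (h.comm b hb.1 s⁻¹ (inv_mem hs)))
    · intro b hb
      have h1 : s⁻¹ * b * s = b * D s b := by simp only [D]; group
      rw [h1]
      exact mul_mem hb (hB'n (h.comm b hb.1 s hs))

/-- the levels -/
def lev {B B' : Subgroup G} {x : G} (h : Sec B B' x) : ℕ → {L : Subgroup G // Good B B' x L}
  | 0 => ⟨B', h.good_bot⟩
  | n + 1 => ⟨nxt B x (lev h n).1 (lev h n).2.BL, (lev h n).2.next h⟩

theorem mem_lev_succ {B B' : Subgroup G} {x : G} (h : Sec B B' x) (n : ℕ) {b : G} :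
    b ∈ (lev h (n + 1)).1 ↔ b ∈ B ∧ D x b ∈ (lev h n).1 := Iff.rfl

theorem lev_mono {B B' : Subgroup G} {x : G} (h : Sec B B' x) :
    Monotone (fun n => (lev h n).1) := by
  refine monotone_nat_of_le_succ fun n => ?_
  induction n with
  | zero => exact (lev h 1).2.le
  | succ n ih =>
    intro b hb
    exact ⟨hb.1, ih hb.2⟩

theorem mem_lev_of_iter {B B' : Subgroup G} {x : G} (h : Sec B B' x) {b : G} (hb : b ∈ B) {n : ℕ}
    (hn : (D x)^[n] b ∈ B') : b ∈ (lev h n).1 := by
  induction n generalizing b with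
  | zero => exact hn
  | succ n ih =>
    rw [Function.iterate_succ_apply] at hn
    refine ⟨hb, ih ?_ hn⟩
    rw [D_eq]
    exact mul_mem (inv_mem hb) (norm_conj' h.xB hb)

/-- the union of all levels -/
def levTop {B B' : Subgroup G} {x : G} (h : Sec B B' x) : Subgroup G := ⨆ n, (lev h n).1

theorem mem_levTop {B B' : Subgroup G} {x : G} (h : Sec B B' x) {b : G} :
    b ∈ levTop h ↔ ∃ n, b ∈ (lev h n).1 :=
  mem_iSup_of_directed (lev_mono h).directed_le

theorem levTop_good {B B' : Subgroup G} {x : G} (h : Sec B B' x) : Good B B' x (levTop h) where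
  le := (lev h 0).2.le.trans (le_iSup (fun n => (lev h n).1) 0)
  le' := iSup_le fun n => (lev h n).2.le'
  xL := by
    refine mem_norm ?_ ?_
    · intro b hb
      obtain ⟨n, hn⟩ := (mem_levTop h).1 hb
      exact (mem_levTop h).2 ⟨n, norm_conj (lev h n).2.xL hn⟩
    · intro b hb
      obtain ⟨n, hn⟩ := (mem_levTop h).1 hb
      exact (mem_levTop h).2 ⟨n, norm_conj' (lev h n).2.xL hn⟩
  BL := by
    intro s hs
    refine mem_norm ?_ ?_
    · intro b hb
      obtain ⟨n, hn⟩ := (mem_levTop h).1 hb
      exact (mem_levTop h).2 ⟨n, norm_conj ((lev h n).2.BL hs) hn⟩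
    · intro b hb
      obtain ⟨n, hn⟩ := (mem_levTop h).1 hb
      exact (mem_levTop h).2 ⟨n, norm_conj' ((lev h n).2.BL hs) hn⟩

theorem levTop_step {B B' : Subgroup G} {x : G} (h : Sec B B' x) {b : G} (hb : b ∈ B)
    (hb' : D x b ∈ levTop h) : b ∈ levTop h := by
  obtain ⟨n, hn⟩ := (mem_levTop h).1 hb'
  exact (mem_levTop h).2 ⟨n + 1, hb, hn⟩

/-! ### A Hall type criterion -/

theorem lcs_norm {T : Subgroup G} {x : G} (hx : x ∈ normalizer (T : Set G)) (i : ℕ) :
    x ∈ normalizer (T.lowerCentralSeries i : Set G) := by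
  rw [mem_normalizer_iff_map_conj_eq, Subgroup.map_lowerCentralSeries]
  rw [mem_normalizer_iff_map_conj_eq] at hx
  rw [hx]

theorem lcs_sec {T : Subgroup G} {x : G} (hx : x ∈ normalizer (T : Set G)) (i : ℕ) :
    Sec (T.lowerCentralSeries i) (T.lowerCentralSeries (i + 1)) x where
  le := Subgroup.lowerCentralSeries_antitone T (Nat.le_succ i)
  comm := fun _ hs _ ht => D_mem_comm hs
    (Subgroup.lowerCentralSeries_antitone T (Nat.zero_le i) ht)
  xB := lcs_norm hx i
  xB' := lcs_norm hx (i + 1)

theorem hall_star {T₁ : Set G} {x : G} (hx : x ∈ normalizer (closure T₁ : Set G))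
    (hE : ∀ t ∈ T₁, ∃ n, (D x)^[n] t = 1) (i : ℕ) :
    ∀ g ∈ (closure T₁).lowerCentralSeries i, g ∈ levTop (lcs_sec hx i) := by
  set T := closure T₁ with hT
  have hlT : ∀ i, T.lowerCentralSeries i ≤ T :=
    fun i => Subgroup.lowerCentralSeries_antitone T (Nat.zero_le i)
  induction i with
  | zero =>
    have h1 : closure T₁ ≤ levTop (lcs_sec hx 0) := by
      rw [closure_le]
      intro t ht
      obtain ⟨n, hn⟩ := hE t ht
      refine (mem_levTop _).2 ⟨n, mem_lev_of_iter _ (subset_closure ht) ?_⟩
      rw [hn]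
      exact one_mem _
    exact h1
  | succ i ih =>
    set Ei := levTop (lcs_sec hx (i + 1)) with hEi
    have hgood : Good _ _ x Ei := levTop_good (lcs_sec hx (i + 1))
    -- `Ei` is normalized by `T`
    have hTE : T ≤ normalizer (Ei : Set G) := by
      intro s hs
      refine mem_norm ?_ ?_
      · intro b hb
        have h1 : s * b * s⁻¹ = b * D s⁻¹ b := by simp only [D]; group
        rw [h1]
        exact mul_mem hb (hgood.le (D_mem_comm (hgood.le' hb) (inv_mem hs)))
      · intro b hb
        have h1 : s⁻¹ * b * s = b * D s b := by simp only [D]; group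
        rw [h1]
        exact mul_mem hb (hgood.le (D_mem_comm (hgood.le' hb) hs))
    have hQ : ∀ N k l, k + l = N → ∀ g ∈ (lev (lcs_sec hx i) k).1, ∀ t ∈ T,
        (D x)^[l] t = 1 → D t g ∈ Ei := by
      intro N
      induction N using Nat.strong_induction_on with
      | _ N IH =>
        intro k l hkl g hg t ht htl
        rcases k with _ | k
        · exact hgood.le (D_mem_comm hg ht)
        rcases l with _ | l
        · rw [Function.iterate_zero_apply] at htl
          rw [htl, D_one_left]
          exact one_mem _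
        have hgi : g ∈ T.lowerCentralSeries i := hg.1
        set g' := D x g with hg'
        have hg'k : g' ∈ (lev (lcs_sec hx i) k).1 := hg.2
        have hg'i : g' ∈ T.lowerCentralSeries i := (lev (lcs_sec hx i) k).2.le' hg'k
        set t' := D x t with ht'
        have ht'T : t' ∈ T := by
          rw [ht', D_eq]
          exact mul_mem (inv_mem ht) (norm_conj' hx ht)
        have ht'l : (D x)^[l] t' = 1 := by
          rw [Function.iterate_succ_apply] at htl
          exact htl
        have hA1 : D t' g ∈ Ei := IH (k + 1 + l) (by omega) (k + 1) l rfl g hg t' ht'T ht'l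
        have hA2 : D t' g' ∈ Ei := IH (k + l) (by omega) k l rfl g' hg'k t' ht'T ht'l
        have hB : D t g' ∈ Ei := IH (k + (l + 1)) (by omega) k (l + 1) rfl g' hg'k t ht htl
        have hu : D t g ∈ T.lowerCentralSeries (i + 1) := D_mem_comm hgi ht
        refine levTop_step _ hu ?_
        set u := D t g with hudef
        have hid : D x u = (u⁻¹ * ((g'⁻¹ * D t' g * g') * D t' g') * u) *
            (D (g' * t') u) * (t'⁻¹ * D t g' * t') := by
          simp only [hudef, hg', ht', D]
          group
        rw [hid]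
        have huT : u ∈ T := hlT _ hu
        have hg'T : g' ∈ T := hlT _ hg'i
        refine mul_mem (mul_mem ?_ ?_) ?_
        · exact norm_conj' (hTE huT) (mul_mem (norm_conj' (hTE hg'T) hA1) hA2)
        · exact hgood.le (D_mem_comm hu (mul_mem hg'T ht'T))
        · exact norm_conj' (hTE ht'T) hB
    have hmain : ⁅T.lowerCentralSeries i, T⁆ ≤ Ei := by
      refine comm_le_of_D ?_
      intro t ht g hg
      obtain ⟨k, hk⟩ := (mem_levTop _).1 (ih g hg)
      refine CL1 (S := T₁) (fun s hs => hTE (subset_closure hs)) ?_ t ht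
      intro s hs
      obtain ⟨l, hl⟩ := hE s hs
      exact hQ (k + l) k l rfl g hk s (subset_closure hs) hl
    exact hmain

theorem hall_aux {T₁ : Set G} (hfin : T₁.Finite) (hnil : Nil (closure T₁)) {y : G}
    (hy : y ∈ normalizer (closure T₁ : Set G))
    (hE : ∀ t ∈ T₁, ∃ n, (D y)^[n] t = 1) : Nil (closure (insert y T₁)) := by
  set T := closure T₁ with hT
  set K := closure (insert y T₁) with hK
  have hTK : T ≤ K := closure_mono (Set.subset_insert _ _)
  have hyK : y ∈ K := subset_closure (Set.mem_insert _ _)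
  have hKT : K ≤ normalizer (T : Set G) := by
    rw [hK, closure_le]
    rintro g (rfl | hg)
    · exact hy
    · exact le_normalizer (subset_closure hg)
  have step : ∀ u ∈ K, (∀ x ∈ insert y T₁, ∃ n, D x u ∈ uc K n) → ∃ n, u ∈ uc K n := by
    intro u hu hx
    have h1 : ∀ x ∈ insert y T₁, ∀ᶠ n in Filter.atTop, D x u ∈ uc K n := by
      intro x hx'
      obtain ⟨n, hn⟩ := hx x hx'
      filter_upwards [Filter.eventually_ge_atTop n] with m hm
      exact uc_mono K hm hn
    have h2 := ((hfin.insert y).eventually_all).2 h1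
    obtain ⟨n, hn⟩ := h2.exists
    refine ⟨n + 1, (mem_uc_succ K n).2 ⟨hu, ?_⟩⟩
    exact CL1 (S := insert y T₁) (fun x hx' => uc_norm K n (subset_closure hx')) hn
  have hlc : ∀ i, (∀ g ∈ T.lowerCentralSeries (i + 1), ∃ n, g ∈ uc K n) →
      ∀ g ∈ T.lowerCentralSeries i, ∃ n, g ∈ uc K n := by
    intro i hi g hg
    have hiT : T.lowerCentralSeries i ≤ T := Subgroup.lowerCentralSeries_antitone T (Nat.zero_le i)
    have st2 : ∀ u ∈ T.lowerCentralSeries i, (∃ n, D y u ∈ uc K n) → ∃ n, u ∈ uc K n := by
      intro u hu hyu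
      refine step u (hTK (hiT hu)) ?_
      rintro x (rfl | hx)
      · exact hyu
      · exact hi _ (D_mem_comm hu (subset_closure hx))
    obtain ⟨n, hn⟩ := (mem_levTop _).1 (hall_star hy hE i g hg)
    have hlev : ∀ n, ∀ u ∈ (lev (lcs_sec hy i) n).1, ∃ m, u ∈ uc K m := by
      intro n
      induction n with
      | zero => exact fun u hu => hi u hu
      | succ n ih => exact fun u hu => st2 u hu.1 (ih _ hu.2)
    exact hlev n g hn
  obtain ⟨c, hc⟩ := hnil
  have hall : ∀ j i, i + j = c → ∀ g ∈ T.lowerCentralSeries i, ∃ n, g ∈ uc K n := by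
    intro j
    induction j with
    | zero =>
      intro i hi g hg
      rw [add_zero] at hi
      rw [hi, hc, mem_bot] at hg
      rw [hg]
      exact ⟨0, one_mem _⟩
    | succ j ih =>
      intro i hi
      exact hlc i (ih (i + 1) (by omega))
  have hTall : ∀ g ∈ T, ∃ n, g ∈ uc K n := hall c 0 (by omega)
  have h1 : ∀ x ∈ T₁, ∀ᶠ n in Filter.atTop, x ∈ uc K n := by
    intro x hx'
    obtain ⟨n, hn⟩ := hTall x (subset_closure hx')
    filter_upwards [Filter.eventually_ge_atTop n] with m hm
    exact uc_mono K hm hn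
  obtain ⟨n, hn⟩ := ((hfin.eventually_all).2 h1).exists
  have hTn : T ≤ uc K n := (closure_le _).2 hn
  have hcomm : ∀ x ∈ K, ∀ u ∈ K, D x u ∈ T := by
    refine CL2 (S := insert y T₁) (T := insert y T₁) (fun x hx => hKT (subset_closure hx))
      (fun x hx => hKT (subset_closure hx)) ?_
    rintro x (rfl | hx) u (rfl | hu)
    · rw [D_self]; exact one_mem _
    · rw [D_eq]
      exact mul_mem (inv_mem (subset_closure hu)) (norm_conj' hy (subset_closure hu))
    · rw [D_eq']
      exact mul_mem (inv_mem (norm_conj' hy (subset_closure hx))) (subset_closure hx)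
    · rw [D_eq]
      have hu' : u ∈ T := subset_closure hu
      have hx' : x ∈ T := subset_closure hx
      exact mul_mem (inv_mem hu') (mul_mem (mul_mem (inv_mem hx') hu') hx')
  refine nil_of_uc (n := n + 1) ?_
  intro g hg
  exact (mem_uc_succ K n).2 ⟨hg, fun x hx => hTn (hcomm x hx g hg)⟩

/-- If `Y` generates a locally nilpotent subgroup normalized by `x`, and `[t, x, …, x] = 1` for
all `t ∈ Y`, then `⟨x, Y⟩` is locally nilpotent. -/
theorem LN_insert {Y : Set G} (hY : LN (closure Y)) {y : G}
    (hy : y ∈ normalizer (closure Y : Set G)) (hE : ∀ t ∈ Y, ∃ n, (D y)^[n] t = 1) :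
    LN (closure (insert y Y)) := by
  refine LN_closure fun F hF hFS => ?_
  have hT₁fin : (F ∩ Y).Finite := hF.inter_of_left _
  set T₁ : Set G := F ∩ Y with hT₁
  have hF' : F ⊆ insert y T₁ := by
    intro f hf
    rcases hFS hf with h | h
    · exact Or.inl h
    · exact Or.inr ⟨hf, h⟩
  set U : Set G := ⋃ t ∈ T₁, Set.range (fun j : ℕ => (D y)^[j] t) with hU
  have hUfin : U.Finite := by
    refine hT₁fin.biUnion fun t ht => ?_
    obtain ⟨n, hn⟩ := hE t ht.2
    refine (((Set.finite_lt_nat n).image (fun j : ℕ => (D y)^[j] t)).insert 1).subset ?_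
    rintro _ ⟨j, rfl⟩
    by_cases hj : j < n
    · exact Or.inr ⟨j, hj, rfl⟩
    · exact Or.inl (D_iter_stable hn (not_lt.1 hj))
  have hUH : U ⊆ (closure Y : Set G) := by
    intro u hu
    simp only [hU, Set.mem_iUnion, Set.mem_range] at hu
    obtain ⟨t, ht, j, rfl⟩ := hu
    induction j with
    | zero => exact subset_closure ht.2
    | succ j ih =>
      rw [Function.iterate_succ_apply', D_eq]
      exact mul_mem (inv_mem ih) (norm_conj' hy ih)
  have hUmem : ∀ t ∈ T₁, ∀ j, (D y)^[j] t ∈ closure U := fun t ht j =>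
    subset_closure (Set.mem_biUnion ht ⟨j, rfl⟩)
  have hUE : ∀ u ∈ U, ∃ n, (D y)^[n] u = 1 := by
    intro u hu
    simp only [hU, Set.mem_iUnion, Set.mem_range] at hu
    obtain ⟨t, ht, j, rfl⟩ := hu
    obtain ⟨n, hn⟩ := hE t ht.2
    refine ⟨n, ?_⟩
    rw [← Function.iterate_add_apply]
    exact D_iter_stable hn (Nat.le_add_right _ _)
  have hyn : y ∈ normalizer (closure U : Set G) := by
    have hrev : ∀ t ∈ T₁, ∀ j, y * (D y)^[j] t * y⁻¹ ∈ closure U := by
      intro t ht j
      obtain ⟨n, hn⟩ := hE t ht.2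
      have key : ∀ i j, j + i = n → y * (D y)^[j] t * y⁻¹ ∈ closure U := by
        intro i
        induction i with
        | zero =>
          intro j hj
          rw [add_zero] at hj
          rw [hj, hn]
          simp
        | succ i ih =>
          intro j hj
          have h1 := ih (j + 1) (by omega)
          rw [Function.iterate_succ_apply'] at h1
          have h2 := mul_mem (hUmem t ht j) (inv_mem h1)
          convert h2 using 1
          generalize (D y)^[j] t = u
          simp only [D]
          group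
      by_cases hj : j ≤ n
      · exact key (n - j) j (by omega)
      · rw [D_iter_stable hn (le_of_not_ge hj)]
        simp
    refine mem_norm_closure ?_ ?_
    · intro h hh
      simp only [hU, Set.mem_iUnion, Set.mem_range] at hh
      obtain ⟨t, ht, j, rfl⟩ := hh
      exact hrev t ht j
    · intro h hh
      simp only [hU, Set.mem_iUnion, Set.mem_range] at hh
      obtain ⟨t, ht, j, rfl⟩ := hh
      have h2 := mul_mem (hUmem t ht j) (hUmem t ht (j + 1))
      rw [Function.iterate_succ_apply'] at h2
      convert h2 using 1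
      generalize (D y)^[j] t = u
      simp only [D]
      group
  have hmain := hall_aux hUfin (hY U hUfin hUH) hyn hUE
  refine hmain.mono ((closure_le _).2 ?_)
  intro f hf
  rcases hF' hf with h | h
  · exact subset_closure (Or.inl h)
  · exact closure_mono (Set.subset_insert _ _) (hUmem f h 0)

end Pool.Agent.EngelMc
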